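import Mathlib

/-!
# The Fejer kernel and its Fourier transform
-/

open Complex MeasureTheory Filter Topology Set FourierTransform

namespace Pool.Agent.Lib.PNT

/-- The tent function. -/
noncomputable def tent (t : ℝ) : ℝ := max 0 (1 - |t|)

/-- The Fejer kernel, normalised to have integral one. -/
noncomputable def fejer (u : ℝ) : ℝ := (Real.sinc (u / 2)) ^ 2 / (2 * Real.pi)

theorem continuous_tent : Continuous tent := by
  unfold tent; fun_prop

theorem tent_nonneg (t : ℝ) : 0 ≤ tent t := le_max_left _ _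

theorem tent_eq_zero {t : ℝ} (ht : 1 ≤ |t|) : tent t = 0 :=
  max_eq_left (by linarith)

theorem tent_zero : tent 0 = 1 := by simp [tent]

theorem hasCompactSupport_tent : HasCompactSupport tent := by
  refine HasCompactSupport.intro (K := Icc (-1) 1) isCompact_Icc ?_
  intro t ht
  apply tent_eq_zero
  by_contra h
  push Not at h
  exact ht (abs_le.mp h.le)

theorem integrable_tent : Integrable tent :=
  continuous_tent.integrable_of_hasCompactSupport hasCompactSupport_tent

theorem continuous_fejer : Continuous fejer := by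
  unfold fejer
  have := Real.continuous_sinc
  fun_prop

theorem fejer_nonneg (u : ℝ) : 0 ≤ fejer u := by
  unfold fejer
  have := Real.pi_pos
  positivity

theorem fejer_le_one (u : ℝ) : fejer u ≤ 1 := by
  unfold fejer
  have h3 := Real.pi_gt_three
  have h1 : (Real.sinc (u / 2)) ^ 2 ≤ 1 := by
    have := Real.abs_sinc_le_one (u / 2)
    rw [← sq_abs]
    exact pow_le_one₀ (abs_nonneg _) this
  rw [div_le_one (by positivity)]
  linarith

theorem tent_fourier (u : ℝ) :
    ∫ t : ℝ, (tent t : ℂ) * cexp (-(t * u) * I) = ((Real.sinc (u / 2)) ^ 2 : ℝ) := by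
  have h1 : ∫ t : ℝ, (tent t : ℂ) * cexp (-(t * u) * I)
      = ∫ t in (-1 : ℝ)..1, (tent t : ℂ) * cexp (-(t * u) * I) := by
    rw [intervalIntegral.integral_of_le (by norm_num)]
    symm
    apply setIntegral_eq_integral_of_forall_compl_eq_zero
    intro t ht
    have : tent t = 0 := by
      apply tent_eq_zero
      by_contra h
      push Not at h
      rw [abs_lt] at h
      exact ht ⟨h.1, h.2.le⟩
    simp [this]
  have hc : Continuous fun t : ℝ => (tent t : ℂ) * cexp (-(t * u) * I) := by
    have := continuous_tent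
    fun_prop
  have h2 : ∫ t in (-1 : ℝ)..1, (tent t : ℂ) * cexp (-(t * u) * I)
      = (∫ t in (-1 : ℝ)..0, (tent t : ℂ) * cexp (-(t * u) * I))
        + ∫ t in (0 : ℝ)..1, (tent t : ℂ) * cexp (-(t * u) * I) :=
    (intervalIntegral.integral_add_adjacent_intervals (hc.intervalIntegrable _ _)
      (hc.intervalIntegrable _ _)).symm
  have h3 : ∫ t in (-1 : ℝ)..0, (tent t : ℂ) * cexp (-(t * u) * I)
      = ∫ t in (-1 : ℝ)..0, ((1 + t : ℝ) : ℂ) * cexp (-(t * u) * I) := by
    apply intervalIntegral.integral_congr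
    intro t ht
    rw [uIcc_of_le (by norm_num)] at ht
    have : tent t = 1 + t := by
      unfold tent
      rw [abs_of_nonpos ht.2, max_eq_right (by linarith [ht.1])]; ring
    simp only [this]
  have h4 : ∫ t in (0 : ℝ)..1, (tent t : ℂ) * cexp (-(t * u) * I)
      = ∫ t in (0 : ℝ)..1, ((1 - t : ℝ) : ℂ) * cexp (-(t * u) * I) := by
    apply intervalIntegral.integral_congr
    intro t ht
    rw [uIcc_of_le (by norm_num)] at ht
    have : tent t = 1 - t := by
      unfold tent
      rw [abs_of_nonneg ht.1, max_eq_right (by linarith [ht.2])]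
    simp only [this]
  rw [h1, h2, h3, h4]
  rcases eq_or_ne u 0 with rfl | hu
  · simp only [ofReal_zero, mul_zero, neg_zero, zero_mul, Complex.exp_zero, mul_one, zero_div,
      Real.sinc_zero, one_pow, ofReal_one]
    rw [intervalIntegral.integral_ofReal, intervalIntegral.integral_ofReal]
    have e1 : ∫ t in (-1 : ℝ)..0, (1 + t) = 1 / 2 := by
      rw [intervalIntegral.integral_add (by simp) (by simp)]
      simp; norm_num
    have e2 : ∫ t in (0 : ℝ)..1, (1 - t) = 1 / 2 := by
      rw [intervalIntegral.integral_sub (by simp) (by simp)]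
      simp; norm_num
    rw [e1, e2]; norm_num
  · set c : ℂ := -(u * I) with hcdef
    have hc0 : c ≠ 0 := by
      rw [hcdef, neg_ne_zero]
      exact mul_ne_zero (by exact_mod_cast hu) I_ne_zero
    have hexp : ∀ t : ℝ, cexp (-(t * u) * I) = cexp (c * t) := by
      intro t; rw [hcdef]; congr 1; ring
    have hd : ∀ t : ℝ, HasDerivAt (fun t : ℝ => cexp (c * t)) (c * cexp (c * t)) t := by
      intro t
      have h := ((hasDerivAt_id (t : ℂ)).const_mul c).cexp.comp_ofReal
      simpa [mul_comm] using h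
    have hid : ∀ t : ℝ, HasDerivAt (fun t : ℝ => (t : ℂ)) 1 t := fun t =>
      (hasDerivAt_id (t : ℂ)).comp_ofReal
    have e1 : ∫ t in (-1 : ℝ)..0, ((1 + t : ℝ) : ℂ) * cexp (-(t * u) * I)
        = 1 / c - 1 / c ^ 2 + cexp (-c) / c ^ 2 := by
      have hder : ∀ t ∈ uIcc (-1 : ℝ) 0, HasDerivAt
          (fun t : ℝ => (1 + (t : ℂ)) * cexp (c * t) / c - cexp (c * t) / c ^ 2)
          (((1 + t : ℝ) : ℂ) * cexp (-(t * u) * I)) t := by
        intro t _
        rw [hexp]
        have h := ((((hid t).const_add 1).mul (hd t)).div_const c).sub ((hd t).div_const (c ^ 2))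
        convert! h using 1
        push_cast
        field_simp
        ring
      rw [intervalIntegral.integral_eq_sub_of_hasDerivAt hder
        (Continuous.intervalIntegrable (by fun_prop) _ _)]
      simp
    have e2 : ∫ t in (0 : ℝ)..1, ((1 - t : ℝ) : ℂ) * cexp (-(t * u) * I)
        = cexp c / c ^ 2 - 1 / c - 1 / c ^ 2 := by
      have hder : ∀ t ∈ uIcc (0 : ℝ) 1, HasDerivAt
          (fun t : ℝ => (1 - (t : ℂ)) * cexp (c * t) / c + cexp (c * t) / c ^ 2)
          (((1 - t : ℝ) : ℂ) * cexp (-(t * u) * I)) t := by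
        intro t _
        rw [hexp]
        have h := ((((hid t).const_sub 1).mul (hd t)).div_const c).add ((hd t).div_const (c ^ 2))
        convert! h using 1
        push_cast
        field_simp
        ring
      rw [intervalIntegral.integral_eq_sub_of_hasDerivAt hder
        (Continuous.intervalIntegrable (by fun_prop) _ _)]
      simp
      ring
    rw [e1, e2]
    have hsum : cexp (-c) + cexp c = 2 * (Real.cos u : ℂ) := by
      rw [hcdef, neg_neg]
      rw [ofReal_cos, Complex.cos]
      ring_nf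
    have hc2 : c ^ 2 = -((u : ℂ) ^ 2) := by
      rw [hcdef, neg_sq, mul_pow, I_sq]; ring
    have hu' : (u : ℂ) ≠ 0 := by exact_mod_cast hu
    have hs : (Real.sinc (u / 2)) ^ 2 = 2 * (1 - Real.cos u) / u ^ 2 := by
      rw [Real.sinc_of_ne_zero (by simpa using hu), div_pow]
      have : Real.cos u = 1 - 2 * Real.sin (u / 2) ^ 2 := by
        have h := Real.cos_two_mul (u / 2)
        rw [Real.cos_sq', show 2 * (u / 2) = u by ring] at h
        linarith
      rw [this]
      field_simp
      ring
    have : 1 / c - 1 / c ^ 2 + cexp (-c) / c ^ 2 + (cexp c / c ^ 2 - 1 / c - 1 / c ^ 2)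
        = ((cexp (-c) + cexp c) - 2) / c ^ 2 := by ring
    rw [this, hsum, hc2, hs]
    push_cast
    field_simp
    ring

theorem sinc_sq_le (x : ℝ) : (Real.sinc x) ^ 2 ≤ 2 * (1 + x ^ 2)⁻¹ := by
  have h1 : (Real.sinc x) ^ 2 ≤ 1 := by
    have := Real.abs_sinc_le_one x
    rw [← sq_abs]
    exact pow_le_one₀ (abs_nonneg _) this
  have h2 : x ^ 2 * (Real.sinc x) ^ 2 ≤ 1 := by
    rcases eq_or_ne x 0 with rfl | hx
    · simp
    · rw [Real.sinc_of_ne_zero hx, div_pow]
      have : x ^ 2 * (Real.sin x ^ 2 / x ^ 2) = Real.sin x ^ 2 := by field_simp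
      rw [this]
      exact Real.sin_sq_le_one x
  rw [← div_eq_mul_inv, le_div_iff₀ (by positivity)]
  nlinarith

theorem integrable_fejer : Integrable fejer := by
  have h1 : Integrable fun x : ℝ => (1 + x ^ 2)⁻¹ := integrable_inv_one_add_sq
  have h2 : Integrable fun x : ℝ => (1 + (x / 2) ^ 2)⁻¹ := h1.comp_div (by norm_num)
  refine Integrable.mono' (g := fun x : ℝ => (2 * (1 + (x / 2) ^ 2)⁻¹) / (2 * Real.pi))
    ((h2.const_mul 2).div_const _) continuous_fejer.aestronglyMeasurable ?_
  refine Eventually.of_forall fun x => ?_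
  rw [Real.norm_of_nonneg (fejer_nonneg x), fejer]
  exact div_le_div_of_nonneg_right (sinc_sq_le _) (by positivity)

theorem fourier_tent (w : ℝ) : 𝓕 (fun t : ℝ => (tent t : ℂ)) w = ((2 * Real.pi * fejer (2 * Real.pi * w) : ℝ) : ℂ) := by
  rw [Real.fourier_eq']
  have := tent_fourier (2 * Real.pi * w)
  have hpi := Real.pi_pos
  rw [fejer, mul_div_cancel₀ _ (by positivity), ← this]
  apply integral_congr_ae
  refine Eventually.of_forall fun t => ?_
  simp only [smul_eq_mul]
  rw [mul_comm]
  congr 1
  simp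
  ring_nf

theorem integral_fejer : ∫ u, fejer u = 1 := by
  have hpi := Real.pi_pos
  have hF : (𝓕 (fun t : ℝ => (tent t : ℂ)))
      = fun w : ℝ => ((2 * Real.pi * fejer (2 * Real.pi * w) : ℝ) : ℂ) := by
    ext w; exact fourier_tent w
  have hint : Integrable (𝓕 (fun t : ℝ => (tent t : ℂ))) := by
    rw [hF]
    apply Integrable.ofReal
    exact (integrable_fejer.comp_mul_left' (by positivity : 2 * Real.pi ≠ 0)).const_mul _
  have hinv := Continuous.fourierInv_fourier_eq (f := fun t : ℝ => (tent t : ℂ))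
    (by have := continuous_tent; fun_prop) integrable_tent.ofReal hint
  have h0 := congrFun hinv 0
  rw [Real.fourierInv_eq'] at h0
  simp only [inner_zero_right, mul_zero, ofReal_zero, zero_mul, Complex.exp_zero, one_smul,
    tent_zero, ofReal_one] at h0
  rw [hF] at h0
  beta_reduce at h0
  rw [integral_complex_ofReal] at h0
  have h1 : ∫ w : ℝ, 2 * Real.pi * fejer (2 * Real.pi * w) = 1 := by exact_mod_cast h0
  rw [integral_const_mul, Measure.integral_comp_mul_left] at h1
  rw [abs_of_pos (by positivity), smul_eq_mul, ← mul_assoc, mul_inv_cancel₀ (by positivity),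
    one_mul] at h1
  exact h1

/-- Scaled Fejer kernel. -/
noncomputable def fejerS (l u : ℝ) : ℝ := l * fejer (l * u)

/-- Scaled tent. -/
noncomputable def tentS (l t : ℝ) : ℝ := tent (t / l)

theorem continuous_fejerS (l : ℝ) : Continuous (fejerS l) := by
  unfold fejerS
  have := continuous_fejer
  fun_prop

theorem continuous_tentS (l : ℝ) : Continuous (tentS l) := by
  unfold tentS
  have := continuous_tent
  fun_prop

theorem fejerS_nonneg {l : ℝ} (hl : 0 < l) (u : ℝ) : 0 ≤ fejerS l u :=
  mul_nonneg hl.le (fejer_nonneg _)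

theorem fejerS_le {l : ℝ} (hl : 0 < l) (u : ℝ) : fejerS l u ≤ l := by
  unfold fejerS
  have := fejer_le_one (l * u)
  nlinarith

theorem tentS_nonneg (l t : ℝ) : 0 ≤ tentS l t := tent_nonneg _

theorem tentS_eq_zero {l t : ℝ} (hl : 0 < l) (ht : l ≤ |t|) : tentS l t = 0 := by
  apply tent_eq_zero
  rwa [abs_div, abs_of_pos hl, le_div_iff₀ hl, one_mul]

theorem integrable_tentS {l : ℝ} (hl : 0 < l) : Integrable (tentS l) := by
  unfold tentS
  exact integrable_tent.comp_div hl.ne'

theorem integrable_fejerS {l : ℝ} (hl : 0 < l) : Integrable (fejerS l) := by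
  unfold fejerS
  exact (integrable_fejer.comp_mul_left' hl.ne').const_mul _

theorem integral_fejerS {l : ℝ} (hl : 0 < l) : ∫ u, fejerS l u = 1 := by
  unfold fejerS
  rw [integral_const_mul, Measure.integral_comp_mul_left, integral_fejer, abs_of_pos
    (by positivity), smul_eq_mul, mul_one, mul_inv_cancel₀ hl.ne']

theorem tentS_fourier {l : ℝ} (hl : 0 < l) (u : ℝ) :
    ∫ t : ℝ, (tentS l t : ℂ) * cexp (-(t * u) * I) = ((2 * Real.pi * fejerS l u : ℝ) : ℂ) := by
  have h := tent_fourier (l * u)
  have h2 := Measure.integral_comp_div (fun t : ℝ => (tent t : ℂ) * cexp (-(t * (l * u : ℝ)) * I)) l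
  rw [h, abs_of_pos hl] at h2
  have h3 : ∫ t : ℝ, (tentS l t : ℂ) * cexp (-(t * u) * I)
      = ∫ x : ℝ, (tent (x / l) : ℂ) * cexp (-(((x / l : ℝ) : ℂ) * (l * u : ℝ)) * I) := by
    apply integral_congr_ae
    refine Eventually.of_forall fun t => ?_
    simp only [tentS]
    congr 2
    push_cast
    have : (l : ℂ) ≠ 0 := by exact_mod_cast hl.ne'
    field_simp
  rw [h3, h2, fejerS, fejer]
  have hpi := Real.pi_pos
  rw [real_smul, ← ofReal_mul]
  congr 1
  field_simp

end Pool.Agent.Lib.PNT
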