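import Mathlib
import Pool.Agent.Lib.PNT.Fejer

/-!
# The Wiener-Ikehara theorem, Laplace transform form
-/

open Complex MeasureTheory Filter Topology Set

namespace Pool.Agent.Lib.PNT

/-- Hypotheses of the Wiener-Ikehara theorem in Laplace form. -/
structure WIData (α : ℝ → ℝ) (A : ℝ) (H : ℂ → ℂ) : Prop where
  mono : MonotoneOn α (Ici 0)
  nonneg : ∀ u, 0 ≤ u → 0 ≤ α u
  int : ∀ σ : ℝ, 1 < σ → IntegrableOn (fun u => α u * Real.exp (-(σ * u))) (Ioi 0)
  cont : ContinuousOn H {s | 1 ≤ s.re}
  lap : ∀ s : ℂ, 1 < s.re →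
    ∫ u in Ioi (0 : ℝ), (α u : ℂ) * cexp (-(s * u)) = H s + A / (s - 1)

/-- The damped difference. -/
noncomputable def wiG (α : ℝ → ℝ) (A δ u : ℝ) : ℝ :=
  (α u * Real.exp (-u) - A) * Real.exp (-(δ * u))

variable {α : ℝ → ℝ} {A : ℝ} {H : ℂ → ℂ}

theorem WIData.integrable_exp {δ : ℝ} (hδ : 0 < δ) :
    IntegrableOn (fun u : ℝ => Real.exp (-(δ * u))) (Ioi 0) := by
  have := integrableOn_exp_mul_Ioi (a := -δ) (by linarith) 0
  refine this.congr_fun (fun u _ => ?_) measurableSet_Ioi
  simp

theorem WIData.integrable_damped (h : WIData α A H) {δ : ℝ} (hδ : 0 < δ) :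
    IntegrableOn (fun u : ℝ => α u * Real.exp (-u) * Real.exp (-(δ * u))) (Ioi 0) := by
  refine (h.int (1 + δ) (by linarith)).congr_fun (fun u _ => ?_) measurableSet_Ioi
  simp only []
  rw [mul_assoc, ← Real.exp_add]
  ring_nf

theorem WIData.integrable_g (h : WIData α A H) {δ : ℝ} (hδ : 0 < δ) :
    IntegrableOn (wiG α A δ) (Ioi 0) := by
  have h1 := h.integrable_damped hδ
  have h2 := (WIData.integrable_exp hδ).const_mul A
  refine (h1.sub h2).congr (Eventually.of_forall fun u => ?_)
  simp only [wiG, Pi.sub_apply]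
  ring

theorem WIData.lap' (h : WIData α A H) {δ : ℝ} (hδ : 0 < δ) (t : ℝ) :
    ∫ u in Ioi (0 : ℝ), (wiG α A δ u : ℂ) * cexp (-(t * u) * I) = H (1 + δ + t * I) := by
  have hs : 1 < (1 + δ + t * I : ℂ).re := by simp [hδ]
  have h1 := h.lap _ hs
  have hre : (-(δ + t * I) : ℂ).re < 0 := by simp [hδ]
  have hint1 : IntegrableOn (fun u : ℝ => (α u : ℂ) * cexp (-((1 + δ + t * I) * u))) (Ioi 0) := by
    have hi := (h.int (1 + δ) (by linarith)).ofReal (𝕜 := ℂ)
    have := hi.mul_bdd (g := fun u : ℝ => cexp (-(t * u) * I)) (c := 1)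
      (by fun_prop) (Eventually.of_forall fun u => by
        rw [show (-(t * u : ℂ) * I) = ((-(t * u) : ℝ) : ℂ) * I by push_cast; ring]
        rw [Complex.norm_exp_ofReal_mul_I])
    refine Integrable.congr this (Eventually.of_forall fun u => ?_)
    simp only [coe_algebraMap]
    push_cast
    rw [mul_assoc, ← Complex.exp_add]
    congr 2
    ring
  have hint2 : IntegrableOn (fun u : ℝ => cexp (-(δ + t * I) * u)) (Ioi 0) :=
    integrableOn_exp_mul_complex_Ioi hre 0
  have h2 := integral_exp_mul_complex_Ioi hre 0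
  have h3 : ∫ u in Ioi (0 : ℝ), (wiG α A δ u : ℂ) * cexp (-(t * u) * I)
      = ∫ u in Ioi (0 : ℝ), ((α u : ℂ) * cexp (-((1 + δ + t * I) * u))
        - A * cexp (-(δ + t * I) * u)) := by
    apply integral_congr_ae
    refine Eventually.of_forall fun u => ?_
    simp only [wiG]
    push_cast
    have e1 : cexp (-((1 + δ + t * I) * u)) = cexp (-(u : ℂ)) * cexp (-(δ * u)) * cexp (-(t * u) * I) := by
      rw [← Complex.exp_add, ← Complex.exp_add]; congr 1; ring
    have e2 : cexp (-(δ + t * I) * u) = cexp (-(δ * u)) * cexp (-(t * u) * I) := by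
      rw [← Complex.exp_add]; congr 1; ring
    rw [e1, e2]
    ring
  rw [h3, integral_sub hint1 (hint2.const_mul _), h1, integral_const_mul, h2]
  have hne : (δ + t * I : ℂ) ≠ 0 := by
    intro h0
    rw [h0] at hre
    simp at hre
  rw [show (1 + δ + t * I - 1 : ℂ) = δ + t * I by ring]
  simp only [ofReal_zero, mul_zero, Complex.exp_zero]
  field_simp
  ring

theorem WIData.fub (h : WIData α A H) {l : ℝ} (hl : 0 < l) {δ : ℝ} (hδ : 0 < δ) (y : ℝ) :
    ∫ t : ℝ, (tentS l t : ℂ) * cexp (t * y * I) * H (1 + δ + t * I)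
      = ((∫ u in Ioi (0 : ℝ), wiG α A δ u * (2 * Real.pi * fejerS l (u - y)) : ℝ) : ℂ) := by
  have hint : Integrable (Function.uncurry fun (t : ℝ) (u : ℝ) =>
      ((tentS l t : ℂ) * (wiG α A δ u : ℂ)) * cexp (-(t * (u - y)) * I))
      ((volume : Measure ℝ).prod (volume.restrict (Ioi (0 : ℝ)))) := by
    have h1 := Integrable.mul_prod ((integrable_tentS hl).ofReal (𝕜 := ℂ))
      ((h.integrable_g hδ).ofReal (𝕜 := ℂ))
    have := h1.mul_bdd (g := fun z : ℝ × ℝ => cexp (-(z.1 * (z.2 - y)) * I)) (c := 1)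
      (by fun_prop) (Eventually.of_forall fun z => by
        rw [show (-(z.1 * (z.2 - y) : ℂ) * I) = ((-(z.1 * (z.2 - y)) : ℝ) : ℂ) * I by push_cast; ring]
        rw [Complex.norm_exp_ofReal_mul_I])
    exact this
  have key := integral_integral_swap hint
  have e1 : ∫ t : ℝ, (tentS l t : ℂ) * cexp (t * y * I) * H (1 + δ + t * I)
      = ∫ t : ℝ, ∫ u in Ioi (0 : ℝ),
        ((tentS l t : ℂ) * (wiG α A δ u : ℂ)) * cexp (-(t * (u - y)) * I) := by
    apply integral_congr_ae
    refine Eventually.of_forall fun t => ?_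
    simp only []
    rw [← h.lap' hδ t, ← integral_const_mul]
    apply integral_congr_ae
    refine Eventually.of_forall fun u => ?_
    simp only []
    have : cexp (-(t * (u - y)) * I) = cexp (t * y * I) * cexp (-(t * u) * I) := by
      rw [← Complex.exp_add]; congr 1; ring
    rw [this]; ring
  have e2 : ∫ u in Ioi (0 : ℝ), ∫ t : ℝ,
        ((tentS l t : ℂ) * (wiG α A δ u : ℂ)) * cexp (-(t * (u - y)) * I)
      = ((∫ u in Ioi (0 : ℝ), wiG α A δ u * (2 * Real.pi * fejerS l (u - y)) : ℝ) : ℂ) := by
    rw [← integral_complex_ofReal]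
    apply integral_congr_ae
    refine Eventually.of_forall fun u => ?_
    simp only []
    rw [ofReal_mul, ← tentS_fourier hl, ← integral_const_mul]
    apply integral_congr_ae
    refine Eventually.of_forall fun t => ?_
    simp only []
    push_cast
    ring
  rw [e1, key, e2]

/-- The smoothed damped function. -/
noncomputable def wiJ (α : ℝ → ℝ) (l δ y : ℝ) : ℝ :=
  ∫ u in Ioi (0 : ℝ), α u * Real.exp (-u) * Real.exp (-(δ * u)) * fejerS l (u - y)

/-- The limit of the smoothed damped function. -/
noncomputable def wiL (A : ℝ) (H : ℂ → ℂ) (l y : ℝ) : ℝ :=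
  A * (∫ u in Ioi (0 : ℝ), fejerS l (u - y))
    + (1 / (2 * Real.pi)) * (∫ t : ℝ, (tentS l t : ℂ) * cexp (t * y * I) * H (1 + t * I)).re

theorem integrable_shift {l : ℝ} (hl : 0 < l) (y : ℝ) :
    Integrable fun u : ℝ => fejerS l (u - y) :=
  (integrable_fejerS hl).comp_sub_right y

theorem WIData.integrable_J (h : WIData α A H) {l : ℝ} (hl : 0 < l) {δ : ℝ} (hδ : 0 < δ) (y : ℝ) :
    IntegrableOn (fun u : ℝ => α u * Real.exp (-u) * Real.exp (-(δ * u)) * fejerS l (u - y))
      (Ioi 0) := by
  refine (h.integrable_damped hδ).mul_bdd (c := l) ?_ (Eventually.of_forall fun u => ?_)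
  · have := continuous_fejerS l
    fun_prop
  · rw [Real.norm_of_nonneg (fejerS_nonneg hl _)]
    exact fejerS_le hl _

theorem WIData.J_eq (h : WIData α A H) {l : ℝ} (hl : 0 < l) {δ : ℝ} (hδ : 0 < δ) (y : ℝ) :
    wiJ α l δ y = A * (∫ u in Ioi (0 : ℝ), Real.exp (-(δ * u)) * fejerS l (u - y))
      + (1 / (2 * Real.pi)) *
        (∫ t : ℝ, (tentS l t : ℂ) * cexp (t * y * I) * H (1 + δ + t * I)).re := by
  have hpi := Real.pi_pos
  rw [h.fub hl hδ y, ofReal_re]
  have h1 := h.integrable_J hl hδ y
  have h2 : IntegrableOn (fun u : ℝ => Real.exp (-(δ * u)) * fejerS l (u - y)) (Ioi 0) := by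
    refine (WIData.integrable_exp hδ).mul_bdd (c := l) ?_ (Eventually.of_forall fun u => ?_)
    · have := continuous_fejerS l
      fun_prop
    · rw [Real.norm_of_nonneg (fejerS_nonneg hl _)]
      exact fejerS_le hl _
  have h3 : ∫ u in Ioi (0 : ℝ), wiG α A δ u * (2 * Real.pi * fejerS l (u - y))
      = 2 * Real.pi * (wiJ α l δ y
        - A * (∫ u in Ioi (0 : ℝ), Real.exp (-(δ * u)) * fejerS l (u - y))) := by
    unfold wiJ
    rw [← integral_const_mul, ← integral_sub h1 (h2.const_mul A), ← integral_const_mul]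
    apply integral_congr_ae
    refine Eventually.of_forall fun u => ?_
    simp only [wiG]
    ring
  rw [h3]
  field_simp
  ring

theorem WIData.tendsto_J (h : WIData α A H) {l : ℝ} (hl : 0 < l) (y : ℝ) :
    Tendsto (fun δ => wiJ α l δ y) (𝓝[>] 0) (𝓝 (wiL A H l y)) := by
  have hpi := Real.pi_pos
  have hA : Tendsto (fun δ : ℝ => ∫ u in Ioi (0 : ℝ), Real.exp (-(δ * u)) * fejerS l (u - y))
      (𝓝[>] 0) (𝓝 (∫ u in Ioi (0 : ℝ), fejerS l (u - y))) := by
    apply tendsto_integral_filter_of_dominated_convergence (fun u => fejerS l (u - y))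
    · refine Eventually.of_forall fun δ => ?_
      have := continuous_fejerS l
      exact Continuous.aestronglyMeasurable (by fun_prop)
    · filter_upwards [self_mem_nhdsWithin] with δ hδ
      filter_upwards [ae_restrict_mem measurableSet_Ioi] with u hu
      have hδ' : 0 < δ := hδ
      have hu' : 0 < u := hu
      rw [norm_mul, Real.norm_of_nonneg (fejerS_nonneg hl _), Real.norm_of_nonneg (Real.exp_pos _).le]
      have : Real.exp (-(δ * u)) ≤ 1 := by
        rw [Real.exp_le_one_iff]
        have := mul_pos hδ' hu'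
        linarith
      exact mul_le_of_le_one_left (fejerS_nonneg hl _) this
    · exact (integrable_shift hl y).integrableOn
    · refine Eventually.of_forall fun u => ?_
      have : Continuous fun δ : ℝ => Real.exp (-(δ * u)) * fejerS l (u - y) := by fun_prop
      have h0 := (this.tendsto 0).mono_left (nhdsWithin_le_nhds (s := Ioi (0 : ℝ)))
      simpa using h0
  have hB : Tendsto (fun δ : ℝ => ∫ t : ℝ, (tentS l t : ℂ) * cexp (t * y * I) * H (1 + δ + t * I))
      (𝓝[>] 0) (𝓝 (∫ t : ℝ, (tentS l t : ℂ) * cexp (t * y * I) * H (1 + t * I))) := by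
    have hcomp : IsCompact (Icc (1 : ℝ) 2 ×ℂ Icc (-l) l) := isCompact_Icc.reProdIm isCompact_Icc
    have hsub : (Icc (1 : ℝ) 2 ×ℂ Icc (-l) l) ⊆ {s : ℂ | 1 ≤ s.re} := by
      intro s hs
      exact (Complex.mem_reProdIm.mp hs).1.1
    obtain ⟨C, hC⟩ := hcomp.exists_bound_of_continuousOn (h.cont.mono hsub)
    have hcont : ∀ δ : ℝ, 0 ≤ δ → Continuous fun t : ℝ => H (1 + δ + t * I) := by
      intro δ hδ
      apply h.cont.comp_continuous (by fun_prop)
      intro t
      simp [hδ]
    apply tendsto_integral_filter_of_dominated_convergence (fun t => C * tentS l t)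
    · filter_upwards [self_mem_nhdsWithin] with δ hδ
      have h1 := hcont δ (le_of_lt hδ)
      have h2 := continuous_tentS l
      refine Continuous.aestronglyMeasurable (Continuous.mul ?_ h1)
      fun_prop
    · have hmem : Ioo (0 : ℝ) 1 ∈ 𝓝[>] (0 : ℝ) := Ioo_mem_nhdsGT one_pos
      filter_upwards [hmem] with δ hδ
      refine Eventually.of_forall fun t => ?_
      rw [norm_mul, norm_mul, show ((t : ℂ) * y * I) = ((t * y : ℝ) : ℂ) * I by push_cast; ring,
        Complex.norm_exp_ofReal_mul_I, mul_one, Complex.norm_real,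
        Real.norm_of_nonneg (tentS_nonneg _ _), mul_comm]
      rcases le_or_gt l |t| with ht | ht
      · rw [tentS_eq_zero hl ht]; simp
      · apply mul_le_mul_of_nonneg_right _ (tentS_nonneg _ _)
        apply hC
        rw [Complex.mem_reProdIm]
        rw [abs_lt] at ht
        simp only [add_re, one_re, ofReal_re, mul_re, I_re, mul_zero, ofReal_im, I_im, mul_one,
          sub_self, add_zero, add_im, one_im, mul_im, zero_add, mem_Icc]
        exact ⟨⟨by linarith [hδ.1], by linarith [hδ.2]⟩, ht.1.le, ht.2.le⟩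
    · exact (integrable_tentS hl).const_mul C
    · refine Eventually.of_forall fun t => ?_
      apply Tendsto.const_mul
      have hc := h.cont (1 + t * I) (by simp)
      refine Tendsto.comp hc ?_
      rw [tendsto_nhdsWithin_iff]
      constructor
      · have : Continuous fun δ : ℝ => (1 + δ + t * I : ℂ) := by fun_prop
        have h0 := (this.tendsto 0).mono_left (nhdsWithin_le_nhds (s := Ioi (0 : ℝ)))
        simpa using h0
      · filter_upwards [self_mem_nhdsWithin] with δ hδ
        have hδ' : 0 < δ := hδ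
        simp [hδ'.le]
  have hsum := (hA.const_mul A).add (((continuous_re.tendsto _).comp hB).const_mul (1 / (2 * Real.pi)))
  refine Tendsto.congr' ?_ hsum
  filter_upwards [self_mem_nhdsWithin] with δ hδ
  rw [h.J_eq hl hδ y]
  rfl

theorem WIData.tendsto_L (_h : WIData α A H) {l : ℝ} (hl : 0 < l) :
    Tendsto (wiL A H l) atTop (𝓝 A) := by
  have hA : Tendsto (fun y : ℝ => ∫ u in Ioi (0 : ℝ), fejerS l (u - y)) atTop (𝓝 1) := by
    have h1 : ∀ y : ℝ, ∫ u in Ioi (0 : ℝ), fejerS l (u - y) = ∫ v in Ioi (-y), fejerS l v := by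
      intro y
      rw [← integral_indicator measurableSet_Ioi, ← integral_indicator measurableSet_Ioi,
        ← integral_sub_right_eq_self (fun v => (Ioi (-y)).indicator (fejerS l) v) y]
      apply integral_congr_ae
      refine Eventually.of_forall fun u => ?_
      simp only [indicator, mem_Ioi]
      by_cases hu : 0 < u
      · rw [if_pos hu, if_pos (by linarith)]
      · rw [if_neg hu, if_neg (by intro h; exact hu (by linarith))]
    simp_rw [h1]
    have hc : AECover (volume : Measure ℝ) atTop (fun y : ℝ => Ioi (-y)) :=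
      aecover_Ioi tendsto_neg_atTop_atBot
    have := hc.integral_tendsto_of_countably_generated (integrable_fejerS hl)
    rwa [integral_fejerS hl] at this
  have hB : Tendsto (fun y : ℝ => ∫ t : ℝ, (tentS l t : ℂ) * cexp (t * y * I) * H (1 + t * I))
      atTop (𝓝 0) := by
    have hRL := Real.tendsto_integral_exp_smul_cocompact
      (fun t : ℝ => (tentS l t : ℂ) * H (1 + t * I))
    have hy : Tendsto (fun y : ℝ => -(y / (2 * Real.pi))) atTop (cocompact ℝ) := by
      have h1 : Tendsto (fun y : ℝ => -(y / (2 * Real.pi))) atTop atBot :=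
        tendsto_neg_atTop_atBot.comp (tendsto_id.atTop_div_const (by positivity))
      exact h1.mono_right atBot_le_cocompact
    refine (hRL.comp hy).congr fun y => ?_
    simp only [Function.comp]
    apply integral_congr_ae
    refine Eventually.of_forall fun t => ?_
    simp only [Real.fourierChar_apply, Circle.smul_def, smul_eq_mul]
    have hpi := Real.pi_pos
    have : ((2 * Real.pi * (-(t * -(y / (2 * Real.pi)))) : ℝ) : ℂ) * I = t * y * I := by
      push_cast
      have : (Real.pi : ℂ) ≠ 0 := by exact_mod_cast hpi.ne'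
      field_simp
    rw [this]
    ring
  have hsum := (hA.const_mul A).add (((continuous_re.tendsto _).comp hB).const_mul (1 / (2 * Real.pi)))
  simp only [zero_re, mul_zero, add_zero, mul_one] at hsum
  exact hsum

/-- Mass of the kernel on `[-η, η]`. -/
noncomputable def wiP (l η : ℝ) : ℝ := ∫ u in (-η)..η, fejerS l u

theorem tendsto_P {η : ℝ} (hη : 0 < η) : Tendsto (fun l => wiP l η) atTop (𝓝 1) := by
  have h1 : ∀ l, wiP l η = ∫ u in (l * (-η))..(l * η), fejer u := by
    intro l
    unfold wiP fejerS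
    rw [intervalIntegral.integral_const_mul, intervalIntegral.mul_integral_comp_mul_left]
  simp_rw [h1]
  rw [← integral_fejer]
  apply intervalIntegral_tendsto_integral integrable_fejer
  · exact tendsto_id.atTop_mul_const_of_neg (by linarith)
  · exact tendsto_id.atTop_mul_const hη

theorem wiP_le_one {l η : ℝ} (hl : 0 < l) (hη : 0 < η) : wiP l η ≤ 1 := by
  unfold wiP
  rw [intervalIntegral.integral_of_le (by linarith), ← integral_fejerS hl]
  exact setIntegral_le_integral (integrable_fejerS hl)
    (Eventually.of_forall fun u => fejerS_nonneg hl u)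

theorem wiP_shift (l η y : ℝ) (hη : 0 < η) :
    ∫ u in Ioc (y - η) (y + η), fejerS l (u - y) = wiP l η := by
  rw [← intervalIntegral.integral_of_le (by linarith), intervalIntegral.integral_comp_sub_right]
  unfold wiP
  congr 1 <;> ring

theorem WIData.upper (h : WIData α A H) {l η y : ℝ} (hl : 0 < l) (hη : 0 < η) (hy : η ≤ y) :
    α (y - η) * Real.exp (-(y + η)) * wiP l η ≤ wiL A H l y := by
  have h0 : 0 ≤ α (y - η) := h.nonneg _ (by linarith)
  have h1 : ∀ δ > 0, α (y - η) * Real.exp (-(y + η)) * Real.exp (-(δ * (y + η))) * wiP l η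
      ≤ wiJ α l δ y := by
    intro δ hδ
    have hint := h.integrable_J hl hδ y
    have hsub : Ioc (y - η) (y + η) ⊆ Ioi 0 := fun u hu => lt_of_le_of_lt (by linarith) hu.1
    have h2 : ∫ u in Ioc (y - η) (y + η),
        α u * Real.exp (-u) * Real.exp (-(δ * u)) * fejerS l (u - y) ≤ wiJ α l δ y := by
      unfold wiJ
      apply setIntegral_mono_set hint
      · filter_upwards [ae_restrict_mem measurableSet_Ioi] with u hu
        have hu' : (0 : ℝ) < u := hu
        have h3 := h.nonneg u hu'.le
        have h4 := fejerS_nonneg hl (u - y)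
        simp only [Pi.zero_apply]
        positivity
      · exact hsub.eventuallyLE
    refine le_trans ?_ h2
    rw [← wiP_shift l η y hη, ← integral_const_mul]
    apply setIntegral_mono_on ((integrable_shift hl y).integrableOn.const_mul _)
      (hint.mono_set hsub) measurableSet_Ioc
    intro u hu
    have hu0 : 0 < u := hsub hu
    apply mul_le_mul_of_nonneg_right _ (fejerS_nonneg hl _)
    have hm : α (y - η) ≤ α u := h.mono (by simp only [mem_Ici]; linarith) hu0.le hu.1.le
    have he : Real.exp (-(y + η)) ≤ Real.exp (-u) := Real.exp_le_exp.mpr (by linarith [hu.2])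
    have he2 : Real.exp (-(δ * (y + η))) ≤ Real.exp (-(δ * u)) := by
      apply Real.exp_le_exp.mpr
      have := mul_le_mul_of_nonneg_left hu.2 hδ.le
      linarith
    have h3 := h.nonneg u hu0.le
    gcongr
  have h2 : Tendsto (fun δ : ℝ => α (y - η) * Real.exp (-(y + η)) * Real.exp (-(δ * (y + η)))
      * wiP l η) (𝓝[>] 0) (𝓝 (α (y - η) * Real.exp (-(y + η)) * wiP l η)) := by
    have : Continuous fun δ : ℝ => α (y - η) * Real.exp (-(y + η)) * Real.exp (-(δ * (y + η)))
      * wiP l η := by fun_prop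
    have h0 := (this.tendsto 0).mono_left (nhdsWithin_le_nhds (s := Ioi (0 : ℝ)))
    simpa using h0
  refine le_of_tendsto_of_tendsto h2 (h.tendsto_J hl y) ?_
  filter_upwards [self_mem_nhdsWithin] with δ hδ
  exact h1 δ hδ

theorem WIData.lower (h : WIData α A H) {l η y M : ℝ} (hl : 0 < l) (hη : 0 < η) (hy : η ≤ y)
    (hM : ∀ u, 0 ≤ u → α u * Real.exp (-u) ≤ M) :
    wiL A H l y ≤ α (y + η) * Real.exp (-(y - η)) * wiP l η + M * (1 - wiP l η) := by
  have h0 : 0 ≤ α (y + η) := h.nonneg _ (by linarith)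
  have hM0 : 0 ≤ M := le_trans (mul_nonneg (h.nonneg 0 le_rfl) (Real.exp_pos _).le) (hM 0 le_rfl)
  set c : ℝ := α (y + η) * Real.exp (-(y - η)) with hc
  have hc0 : 0 ≤ c := mul_nonneg h0 (Real.exp_pos _).le
  have h1 : ∀ δ > 0, wiJ α l δ y ≤ c * wiP l η + M * (1 - wiP l η) := by
    intro δ hδ
    have hint := h.integrable_J hl hδ y
    set Bd : ℝ → ℝ := fun u => M * fejerS l (u - y)
      + (Ioc (y - η) (y + η)).indicator (fun u => (c - M) * fejerS l (u - y)) u with hBd
    have hi1 : Integrable fun u => M * fejerS l (u - y) := (integrable_shift hl y).const_mul M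
    have hi2 : Integrable ((Ioc (y - η) (y + η)).indicator
        (fun u => (c - M) * fejerS l (u - y))) :=
      ((integrable_shift hl y).const_mul _).indicator measurableSet_Ioc
    have hBdi : Integrable Bd := hi1.add hi2
    have hBd_eq : ∀ u, Bd u = (if u ∈ Ioc (y - η) (y + η) then c else M) * fejerS l (u - y) := by
      intro u
      simp only [hBd, indicator]
      split_ifs
      · ring
      · ring
    have hBd0 : ∀ u, 0 ≤ Bd u := by
      intro u
      rw [hBd_eq]
      apply mul_nonneg _ (fejerS_nonneg hl _)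
      split_ifs
      · exact hc0
      · exact hM0
    have h2 : wiJ α l δ y ≤ ∫ u in Ioi (0 : ℝ), Bd u := by
      unfold wiJ
      apply setIntegral_mono_on hint hBdi.integrableOn measurableSet_Ioi
      intro u hu
      have hu0 : (0 : ℝ) < u := hu
      have h3 := h.nonneg u hu0.le
      rw [hBd_eq]
      apply mul_le_mul_of_nonneg_right _ (fejerS_nonneg hl _)
      have he : Real.exp (-(δ * u)) ≤ 1 := by
        rw [Real.exp_le_one_iff]
        have := mul_pos hδ hu0
        linarith
      have hle : α u * Real.exp (-u) * Real.exp (-(δ * u)) ≤ α u * Real.exp (-u) :=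
        mul_le_of_le_one_right (by positivity) he
      refine hle.trans ?_
      split_ifs with hu1
      · rw [hc]
        have hm : α u ≤ α (y + η) := h.mono hu0.le (by simp only [mem_Ici]; linarith) hu1.2
        have he : Real.exp (-u) ≤ Real.exp (-(y - η)) := Real.exp_le_exp.mpr (by linarith [hu1.1])
        gcongr
      · exact hM u hu0.le
    have h3 : ∫ u in Ioi (0 : ℝ), Bd u ≤ ∫ u, Bd u :=
      setIntegral_le_integral hBdi (Eventually.of_forall hBd0)
    have h4 : ∫ u, Bd u = c * wiP l η + M * (1 - wiP l η) := by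
      rw [hBd, integral_add hi1 hi2, integral_indicator measurableSet_Ioc, integral_const_mul,
        integral_const_mul, wiP_shift l η y hη,
        integral_sub_right_eq_self (fun v => fejerS l v) y, integral_fejerS hl]
      ring
    linarith
  refine le_of_tendsto (h.tendsto_J hl y) ?_
  filter_upwards [self_mem_nhdsWithin] with δ hδ
  exact h1 δ hδ

theorem WIData.A_nonneg (h : WIData α A H) : 0 ≤ A := by
  have hP : ∃ l : ℝ, 0 < l ∧ 0 < wiP l 1 := by
    have h1 := (tendsto_P one_pos).eventually (lt_mem_nhds (show (0 : ℝ) < 1 by norm_num))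
    obtain ⟨l, hl, hl2⟩ := (h1.and (eventually_gt_atTop 0)).exists
    exact ⟨l, hl2, hl⟩
  obtain ⟨l, hl, hP⟩ := hP
  refine ge_of_tendsto (h.tendsto_L hl) ?_
  filter_upwards [eventually_ge_atTop (1 : ℝ)] with y hy
  refine le_trans ?_ (h.upper hl one_pos hy)
  have := h.nonneg (y - 1) (by linarith)
  positivity

theorem WIData.exists_bound (h : WIData α A H) :
    ∃ M, ∀ u, 0 ≤ u → α u * Real.exp (-u) ≤ M := by
  have hP : ∃ l : ℝ, 0 < l ∧ 1 / 2 < wiP l 1 := by
    have h1 := (tendsto_P one_pos).eventually (lt_mem_nhds (show (1 / 2 : ℝ) < 1 by norm_num))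
    obtain ⟨l, hl, hl2⟩ := (h1.and (eventually_gt_atTop 0)).exists
    exact ⟨l, hl2, hl⟩
  obtain ⟨l, hl, hP⟩ := hP
  have hL := (h.tendsto_L hl).eventually (gt_mem_nhds (show A < A + 1 by linarith))
  obtain ⟨Y, hY⟩ := eventually_atTop.mp hL
  set U := max Y 0 with hU
  refine ⟨max (α U) (2 * Real.exp 2 * (A + 1)), fun u hu => ?_⟩
  rcases le_or_gt u U with h1 | h1
  · apply le_max_of_le_left
    have h2 : α u ≤ α U := h.mono hu (by simp [hU]) h1
    have h3 : Real.exp (-u) ≤ 1 := by rw [Real.exp_le_one_iff]; linarith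
    calc α u * Real.exp (-u) ≤ α u := mul_le_of_le_one_right (h.nonneg u hu) h3
      _ ≤ α U := h2
  · apply le_max_of_le_right
    have hyY : Y ≤ u + 1 := by
      have := le_max_left Y 0
      linarith
    have h2 := h.upper hl one_pos (y := u + 1) (by linarith)
    have h3 := hY (u + 1) hyY
    rw [show u + 1 - 1 = u by ring, show -(u + 1 + 1) = -u + -2 by ring, Real.exp_add] at h2
    have h4 := h.nonneg u hu
    have h5 : 0 ≤ α u * (Real.exp (-u) * Real.exp (-2)) := by positivity
    have h6 : α u * (Real.exp (-u) * Real.exp (-2)) * (1 / 2) ≤ A + 1 := by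
      calc α u * (Real.exp (-u) * Real.exp (-2)) * (1 / 2)
          ≤ α u * (Real.exp (-u) * Real.exp (-2)) * wiP l 1 := by gcongr
        _ ≤ A + 1 := by linarith
    have h7 : Real.exp 2 * Real.exp (-2) = 1 := by rw [← Real.exp_add]; simp
    calc α u * Real.exp (-u) = 2 * Real.exp 2 * (α u * (Real.exp (-u) * Real.exp (-2)) * (1 / 2)) := by
          linear_combination (-(α u * Real.exp (-u))) * h7
      _ ≤ 2 * Real.exp 2 * (A + 1) := by gcongr

/-- **Wiener-Ikehara theorem**, Laplace transform form. -/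
theorem WIData.tendsto (h : WIData α A H) :
    Tendsto (fun u => α u * Real.exp (-u)) atTop (𝓝 A) := by
  have hA := h.A_nonneg
  obtain ⟨M, hM⟩ := h.exists_bound
  have hM0 : 0 ≤ M := le_trans (mul_nonneg (h.nonneg 0 le_rfl) (Real.exp_pos _).le) (hM 0 le_rfl)
  rw [tendsto_order]
  constructor
  · intro a ha
    have hc : Continuous fun η : ℝ => Real.exp (-(2 * η)) * (A - η - M * η) := by fun_prop
    have h1 : ∀ᶠ η in 𝓝[>] (0 : ℝ), a < Real.exp (-(2 * η)) * (A - η - M * η) := by
      have := (hc.tendsto 0).mono_left (nhdsWithin_le_nhds (s := Ioi (0 : ℝ)))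
      simp only [mul_zero, neg_zero, Real.exp_zero, sub_zero, one_mul] at this
      exact this.eventually (lt_mem_nhds ha)
    obtain ⟨η, hη1, hη2⟩ := (h1.and (Ioo_mem_nhdsGT (show (0 : ℝ) < 1 by norm_num))).exists
    have hP := (tendsto_P hη2.1).eventually (lt_mem_nhds (show 1 - η < 1 by linarith [hη2.1]))
    obtain ⟨l, hPl, hl⟩ := (hP.and (eventually_gt_atTop 0)).exists
    have hL := (h.tendsto_L hl).eventually (lt_mem_nhds (show A - η < A by linarith [hη2.1]))
    obtain ⟨Y, hY⟩ := eventually_atTop.mp hL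
    filter_upwards [eventually_ge_atTop (max Y 0 + 2)] with u hu
    have hY0 := le_max_left Y 0
    have hY1 := le_max_right Y 0
    have h2 := hY (u - η) (by linarith [hη2.2])
    have h3 := h.lower hl hη2.1 (y := u - η) (by linarith [hη2.2]) hM
    rw [show u - η + η = u by ring, show -(u - η - η) = -u + 2 * η by ring, Real.exp_add] at h3
    have hP1 := wiP_le_one hl hη2.1
    have hu0 : 0 ≤ α u := h.nonneg u (by linarith)
    have h4 : α u * (Real.exp (-u) * Real.exp (2 * η)) * wiP l η
        ≤ α u * Real.exp (-u) * Real.exp (2 * η) := by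
      rw [← mul_assoc]
      exact mul_le_of_le_one_right (by positivity) hP1
    have h5 : M * (1 - wiP l η) ≤ M * η := by
      apply mul_le_mul_of_nonneg_left _ hM0
      linarith
    have h6 : A - η - M * η ≤ α u * Real.exp (-u) * Real.exp (2 * η) := by linarith
    have h7 : Real.exp (-(2 * η)) * Real.exp (2 * η) = 1 := by rw [← Real.exp_add]; simp
    calc a < Real.exp (-(2 * η)) * (A - η - M * η) := hη1
      _ ≤ Real.exp (-(2 * η)) * (α u * Real.exp (-u) * Real.exp (2 * η)) := by gcongr
      _ = α u * Real.exp (-u) := by linear_combination (α u * Real.exp (-u)) * h7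
  · intro a ha
    have hc : ContinuousAt (fun η : ℝ => Real.exp (2 * η) * (A + η) / (1 - η)) 0 := by
      apply ContinuousAt.div (by fun_prop) (by fun_prop) (by norm_num)
    have h1 : ∀ᶠ η in 𝓝[>] (0 : ℝ), Real.exp (2 * η) * (A + η) / (1 - η) < a := by
      have := hc.tendsto.mono_left (nhdsWithin_le_nhds (s := Ioi (0 : ℝ)))
      simp only [mul_zero, Real.exp_zero, sub_zero, one_mul, add_zero, div_one] at this
      exact this.eventually (gt_mem_nhds ha)
    obtain ⟨η, hη1, hη2⟩ := (h1.and (Ioo_mem_nhdsGT (show (0 : ℝ) < 1 by norm_num))).exists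
    have hP := (tendsto_P hη2.1).eventually (lt_mem_nhds (show 1 - η < 1 by linarith [hη2.1]))
    obtain ⟨l, hPl, hl⟩ := (hP.and (eventually_gt_atTop 0)).exists
    have hL := (h.tendsto_L hl).eventually (gt_mem_nhds (show A < A + η by linarith [hη2.1]))
    obtain ⟨Y, hY⟩ := eventually_atTop.mp hL
    filter_upwards [eventually_ge_atTop (max Y 0)] with u hu
    have hY0 := le_max_left Y 0
    have hY1 := le_max_right Y 0
    have h2 := hY (u + η) (by linarith [hη2.1])
    have h3 := h.upper hl hη2.1 (y := u + η) (by linarith)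
    rw [show u + η - η = u by ring, show -(u + η + η) = -u + -(2 * η) by ring, Real.exp_add] at h3
    have hu0 : 0 ≤ α u := h.nonneg u (by linarith)
    have h4 : α u * (Real.exp (-u) * Real.exp (-(2 * η))) * (1 - η)
        ≤ α u * (Real.exp (-u) * Real.exp (-(2 * η))) * wiP l η := by
      apply mul_le_mul_of_nonneg_left hPl.le
      positivity
    have h6 : α u * (Real.exp (-u) * Real.exp (-(2 * η))) * (1 - η) ≤ A + η := by linarith
    have h7 : Real.exp (2 * η) * Real.exp (-(2 * η)) = 1 := by rw [← Real.exp_add]; simp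
    have h8 : 0 < 1 - η := by linarith [hη2.2]
    calc α u * Real.exp (-u)
        = Real.exp (2 * η) * (α u * (Real.exp (-u) * Real.exp (-(2 * η))) * (1 - η)) / (1 - η) := by
          rw [eq_div_iff h8.ne']
          linear_combination (-(α u * Real.exp (-u) * (1 - η))) * h7
      _ ≤ Real.exp (2 * η) * (A + η) / (1 - η) := by gcongr
      _ < a := hη1

end Pool.Agent.Lib.PNT
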