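import Mathlib
import Pool.Agent.Lib.PNT.WienerIkehara

/-!
# The Wiener-Ikehara theorem for Dirichlet series
-/

open Complex MeasureTheory Filter Topology Set

namespace Pool.Agent.Lib.PNT

/-- The summatory function. -/
noncomputable def summ (a : ℕ → ℝ) (x : ℝ) : ℝ := ∑ k ∈ Finset.Icc 1 ⌊x⌋₊, a k

theorem summ_mono {a : ℕ → ℝ} (ha : ∀ n, 0 ≤ a n) : Monotone (summ a) := by
  intro x y hxy
  unfold summ
  apply Finset.sum_le_sum_of_subset_of_nonneg
  · exact Finset.Icc_subset_Icc_right (Nat.floor_le_floor hxy)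
  · intro i _ _
    exact ha i

theorem summ_nonneg {a : ℕ → ℝ} (ha : ∀ n, 0 ≤ a n) (x : ℝ) : 0 ≤ summ a x :=
  Finset.sum_nonneg fun i _ => ha i

theorem summ_le_rpow {a : ℕ → ℝ} (ha : ∀ n, 0 ≤ a n) {r : ℝ} (hr : 0 ≤ r)
    (hS : LSeriesSummable (fun n => (a n : ℂ)) r) :
    ∃ C, 0 ≤ C ∧ ∀ x : ℝ, 1 ≤ x → summ a x ≤ C * x ^ r := by
  have h1 : Summable fun n : ℕ => ‖LSeries.term (fun n => (a n : ℂ)) r n‖ := hS.norm
  refine ⟨∑' n : ℕ, ‖LSeries.term (fun n => (a n : ℂ)) r n‖, tsum_nonneg fun n => norm_nonneg _,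
    fun x hx => ?_⟩
  have h2 : ∀ k ∈ Finset.Icc 1 ⌊x⌋₊, a k ≤ x ^ r * ‖LSeries.term (fun n => (a n : ℂ)) r k‖ := by
    intro k hk
    rw [Finset.mem_Icc] at hk
    have hk0 : k ≠ 0 := by omega
    have hkpos : (0 : ℝ) < k := by exact_mod_cast hk.1
    have hkx : (k : ℝ) ≤ x := (Nat.le_floor_iff (by linarith)).mp hk.2
    rw [LSeries.norm_term_eq, if_neg hk0, Complex.norm_real, Real.norm_of_nonneg (ha k), ofReal_re]
    rw [mul_div_assoc', le_div_iff₀ (Real.rpow_pos_of_pos hkpos _), mul_comm]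
    exact mul_le_mul_of_nonneg_right (Real.rpow_le_rpow hkpos.le hkx hr) (ha k)
  calc summ a x ≤ ∑ k ∈ Finset.Icc 1 ⌊x⌋₊, x ^ r * ‖LSeries.term (fun n => (a n : ℂ)) r k‖ :=
        Finset.sum_le_sum h2
    _ = x ^ r * ∑ k ∈ Finset.Icc 1 ⌊x⌋₊, ‖LSeries.term (fun n => (a n : ℂ)) r k‖ := by
        rw [Finset.mul_sum]
    _ ≤ x ^ r * ∑' n : ℕ, ‖LSeries.term (fun n => (a n : ℂ)) r n‖ := by
        apply mul_le_mul_of_nonneg_left _ (by positivity)
        exact h1.sum_le_tsum _ fun i _ => norm_nonneg _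
    _ = _ := mul_comm _ _

theorem wiData_of_dirichlet (a : ℕ → ℝ) (ha : ∀ n, 0 ≤ a n) (A : ℝ) (G : ℂ → ℂ)
    (hS : ∀ σ : ℝ, 1 < σ → LSeriesSummable (fun n => (a n : ℂ)) σ)
    (hG : ContinuousOn G {s | 1 ≤ s.re})
    (hE : ∀ s : ℂ, 1 < s.re → LSeries (fun n => (a n : ℂ)) s = G s + A / (s - 1)) :
    WIData (fun u => summ a (Real.exp u)) A (fun s => (G s - A) / s) where
  mono := by
    intro u _ v _ huv
    exact summ_mono ha (Real.exp_le_exp.mpr huv)
  nonneg := fun u _ => summ_nonneg ha _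
  int := by
    intro σ hσ
    obtain ⟨C, hC0, hC⟩ := summ_le_rpow ha (r := (1 + σ) / 2) (by linarith)
      (hS _ (by linarith))
    have hm : Measurable fun u => summ a (Real.exp u) :=
      Monotone.measurable fun u v huv => summ_mono ha (Real.exp_le_exp.mpr huv)
    refine Integrable.mono' (g := fun u => C * Real.exp (-((σ - 1) / 2) * u))
      ((integrableOn_exp_mul_Ioi (by linarith) 0).const_mul C) ?_ ?_
    · exact Measurable.aestronglyMeasurable (by fun_prop)
    · filter_upwards [ae_restrict_mem measurableSet_Ioi] with u hu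
      have hu0 : (0 : ℝ) < u := hu
      rw [Real.norm_of_nonneg (mul_nonneg (summ_nonneg ha _) (Real.exp_pos _).le)]
      have h1 := hC (Real.exp u) (by rw [Real.one_le_exp_iff]; exact hu0.le)
      rw [← Real.exp_mul] at h1
      calc summ a (Real.exp u) * Real.exp (-(σ * u))
          ≤ C * Real.exp (u * ((1 + σ) / 2)) * Real.exp (-(σ * u)) := by gcongr
        _ = C * Real.exp (-((σ - 1) / 2) * u) := by
            rw [mul_assoc, ← Real.exp_add]; ring_nf
  cont := by
    apply ContinuousOn.div (hG.sub continuousOn_const) continuousOn_id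
    intro s hs h0
    have : (1 : ℝ) ≤ s.re := hs
    rw [id] at h0
    rw [h0] at this
    simp at this
    linarith
  lap := by
    intro s hs
    have hs0 : s ≠ 0 := by
      intro h0; rw [h0] at hs; simp at hs; linarith
    have hs1 : s - 1 ≠ 0 := by
      intro h0
      have : s = 1 := by linear_combination h0
      rw [this] at hs; simp at hs
    obtain ⟨C, hC0, hC⟩ := summ_le_rpow ha (r := (1 + s.re) / 2) (by linarith)
      (hS _ (by linarith))
    have hO : (fun n : ℕ => ∑ k ∈ Finset.Icc 1 n, a k) =O[atTop]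
        fun n : ℕ => (n : ℝ) ^ ((1 + s.re) / 2) := by
      apply Asymptotics.IsBigO.of_bound C
      filter_upwards [eventually_ge_atTop 1] with n hn
      have h1 := hC n (by exact_mod_cast hn)
      unfold summ at h1
      rw [Nat.floor_natCast] at h1
      rw [Real.norm_of_nonneg (Finset.sum_nonneg fun i _ => ha i),
        Real.norm_of_nonneg (by positivity)]
      exact h1
    have h1 := LSeries_eq_mul_integral_of_nonneg a (r := (1 + s.re) / 2) (by linarith)
      (s := s) (by linarith) hO ha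
    have h2 := integral_comp_exp_Ioi
      (fun t : ℝ => (∑ k ∈ Finset.Icc 1 ⌊t⌋₊, (a k : ℂ)) * (t : ℂ) ^ (-(s + 1))) 0
    rw [Real.exp_zero] at h2
    rw [← h2] at h1
    have h3 : ∫ x in Ioi (0 : ℝ), Real.exp x • ((∑ k ∈ Finset.Icc 1 ⌊Real.exp x⌋₊, (a k : ℂ)) *
        ((Real.exp x : ℝ) : ℂ) ^ (-(s + 1)))
        = ∫ u in Ioi (0 : ℝ), ((summ a (Real.exp u) : ℝ) : ℂ) * cexp (-(s * u)) := by
      apply integral_congr_ae
      refine Eventually.of_forall fun u => ?_
      simp only [summ, real_smul]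
      push_cast
      have h4 : (cexp u) ^ (-(s + 1)) = cexp (-(s + 1) * u) := by
        rw [← ofReal_exp, Complex.cpow_def_of_ne_zero (by exact_mod_cast (Real.exp_pos u).ne'),
          ← Complex.ofReal_log (Real.exp_pos u).le, Real.log_exp, mul_comm]
      rw [h4]
      have h5 : cexp (-(s * u)) = cexp u * cexp (-(s + 1) * u) := by
        rw [← Complex.exp_add]; ring_nf
      rw [h5]
      ring
    rw [h3, hE s hs] at h1
    have h6 : ∫ u in Ioi (0 : ℝ), ((summ a (Real.exp u) : ℝ) : ℂ) * cexp (-(s * u))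
        = (G s + A / (s - 1)) / s := by
      rw [h1]; field_simp
    rw [h6]
    field_simp
    ring

/-- **Wiener-Ikehara theorem** for Dirichlet series with nonnegative coefficients. -/
theorem wiener_ikehara (a : ℕ → ℝ) (ha : ∀ n, 0 ≤ a n) (A : ℝ) (G : ℂ → ℂ)
    (hS : ∀ σ : ℝ, 1 < σ → LSeriesSummable (fun n => (a n : ℂ)) σ)
    (hG : ContinuousOn G {s | 1 ≤ s.re})
    (hE : ∀ s : ℂ, 1 < s.re → LSeries (fun n => (a n : ℂ)) s = G s + A / (s - 1)) :
    Tendsto (fun x : ℝ => summ a x / x) atTop (𝓝 A) := by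
  have h := (wiData_of_dirichlet a ha A G hS hG hE).tendsto
  refine (h.comp Real.tendsto_log_atTop).congr' ?_
  filter_upwards [eventually_gt_atTop 0] with x hx
  simp only [Function.comp]
  rw [Real.exp_neg, Real.exp_log hx, div_eq_mul_inv]

/-- Wiener-Ikehara over the natural numbers. -/
theorem wiener_ikehara_nat (a : ℕ → ℝ) (ha : ∀ n, 0 ≤ a n) (A : ℝ) (G : ℂ → ℂ)
    (hS : ∀ σ : ℝ, 1 < σ → LSeriesSummable (fun n => (a n : ℂ)) σ)
    (hG : ContinuousOn G {s | 1 ≤ s.re})
    (hE : ∀ s : ℂ, 1 < s.re → LSeries (fun n => (a n : ℂ)) s = G s + A / (s - 1)) :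
    Tendsto (fun n : ℕ => (∑ k ∈ Finset.Icc 1 n, a k) / n) atTop (𝓝 A) := by
  have h := (wiener_ikehara a ha A G hS hG hE).comp tendsto_natCast_atTop_atTop
  refine h.congr fun n => ?_
  simp [summ]

end Pool.Agent.Lib.PNT
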