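import Mathlib
import Pool.Agent.Lib.PNT.Dirichlet

/-!
# The prime number theorem, also in arithmetic progressions
-/

open Complex MeasureTheory Filter Topology Set

namespace Pool.Agent.Lib.PNT

/-- Chebyshev's theta function for the primes with property `P`. -/
noncomputable def thetaP (P : ℕ → Prop) [DecidablePred P] (x : ℝ) : ℝ :=
  ∑ p ∈ Finset.Ioc 0 ⌊x⌋₊ with p.Prime ∧ P p, Real.log p

/-- The number of primes up to `x` with property `P`. -/
noncomputable def piP (P : ℕ → Prop) [DecidablePred P] (x : ℝ) : ℕ :=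
  (Finset.filter (fun p => p.Prime ∧ P p) (Finset.Ioc 0 ⌊x⌋₊)).card

variable {P : ℕ → Prop} [DecidablePred P]

theorem thetaP_nonneg (x : ℝ) : 0 ≤ thetaP P x := by
  unfold thetaP
  apply Finset.sum_nonneg
  intro p hp
  exact Real.log_natCast_nonneg p

theorem thetaP_mono : Monotone (thetaP P) := by
  intro x y hxy
  unfold thetaP
  apply Finset.sum_le_sum_of_subset_of_nonneg
  · exact Finset.filter_subset_filter _ (Finset.Ioc_subset_Ioc_right (Nat.floor_le_floor hxy))
  · intro i _ _
    exact Real.log_natCast_nonneg i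

theorem piP_mono : Monotone (piP P) := by
  intro x y hxy
  unfold piP
  apply Finset.card_le_card
  exact Finset.filter_subset_filter _ (Finset.Ioc_subset_Ioc_right (Nat.floor_le_floor hxy))

theorem thetaP_le (x : ℝ) : thetaP P x ≤ piP P x * Real.log x := by
  unfold thetaP piP
  rw [← nsmul_eq_mul, ← Finset.sum_const]
  apply Finset.sum_le_sum
  intro p hp
  rw [Finset.mem_filter, Finset.mem_Ioc] at hp
  have h0 : 0 < p := hp.1.1
  have hx : (p : ℝ) ≤ x := by
    have h1 : 0 < ⌊x⌋₊ := lt_of_lt_of_le h0 hp.1.2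
    have h2 : 0 ≤ x := by
      by_contra h
      rw [Nat.floor_of_nonpos (by linarith)] at h1
      exact lt_irrefl _ h1
    exact (Nat.le_floor_iff h2).mp hp.1.2
  exact Real.log_le_log (by exact_mod_cast h0) hx

theorem piP_le {x δ : ℝ} (hx : 1 < x) (hδ : δ < 1) :
    (piP P x : ℝ) ≤ x ^ (1 - δ) + thetaP P x / ((1 - δ) * Real.log x) := by
  have hlog : 0 < Real.log x := Real.log_pos hx
  have h1δ : 0 < 1 - δ := by linarith
  have hden : 0 < (1 - δ) * Real.log x := mul_pos h1δ hlog
  have h1 : (piP P x : ℝ) ≤ ∑ p ∈ Finset.Ioc 0 ⌊x⌋₊ with p.Prime ∧ P p,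
      ((if p ≤ ⌊x ^ (1 - δ)⌋₊ then (1 : ℝ) else 0) + Real.log p / ((1 - δ) * Real.log x)) := by
    unfold piP
    rw [Finset.card_eq_sum_ones, Nat.cast_sum]
    apply Finset.sum_le_sum
    intro p hp
    rw [Finset.mem_filter] at hp
    have hp1 : (0 : ℝ) < p := by exact_mod_cast hp.2.1.pos
    have hlp : 0 ≤ Real.log p / ((1 - δ) * Real.log x) :=
      div_nonneg (Real.log_natCast_nonneg p) hden.le
    split_ifs with h
    · push_cast; linarith
    · push Not at h
      have h2 : x ^ (1 - δ) < p := by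
        exact (Nat.floor_lt (by positivity)).mp h
      have h3 : (1 - δ) * Real.log x ≤ Real.log p := by
        rw [← Real.log_rpow (by linarith)]
        exact Real.log_le_log (by positivity) h2.le
      rw [zero_add, Nat.cast_one, le_div_iff₀ hden, one_mul]
      exact h3
  refine h1.trans ?_
  rw [Finset.sum_add_distrib]
  apply add_le_add
  · calc (∑ p ∈ Finset.Ioc 0 ⌊x⌋₊ with p.Prime ∧ P p, if p ≤ ⌊x ^ (1 - δ)⌋₊ then (1 : ℝ) else 0)
        ≤ ∑ p ∈ Finset.Ioc 0 ⌊x⌋₊, if p ≤ ⌊x ^ (1 - δ)⌋₊ then (1 : ℝ) else 0 := by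
          apply Finset.sum_le_sum_of_subset_of_nonneg (Finset.filter_subset _ _)
          intro i _ _
          split_ifs <;> norm_num
      _ = ((Finset.Ioc 0 ⌊x⌋₊).filter (fun p => p ≤ ⌊x ^ (1 - δ)⌋₊)).card := by
          rw [← Finset.sum_filter, Finset.sum_const, nsmul_eq_mul, mul_one]
      _ ≤ (Finset.Ioc 0 ⌊x ^ (1 - δ)⌋₊).card := by
          exact_mod_cast Finset.card_le_card (fun p hp => by
            rw [Finset.mem_filter, Finset.mem_Ioc] at hp
            rw [Finset.mem_Ioc]
            exact ⟨hp.1.1, hp.2⟩)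
      _ = (⌊x ^ (1 - δ)⌋₊ : ℝ) := by simp
      _ ≤ x ^ (1 - δ) := Nat.floor_le (by positivity)
  · rw [thetaP, Finset.sum_div]

theorem tendsto_piP {c : ℝ} (h : Tendsto (fun x : ℝ => thetaP P x / x) atTop (𝓝 c)) :
    Tendsto (fun x : ℝ => (piP P x : ℝ) * Real.log x / x) atTop (𝓝 c) := by
  rw [tendsto_order]
  constructor
  · intro a ha
    filter_upwards [h.eventually (lt_mem_nhds ha), eventually_gt_atTop 0] with x hx hx0
    refine hx.trans_le ?_
    exact div_le_div_of_nonneg_right (thetaP_le x) hx0.le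
  · intro a ha
    have hc : ContinuousAt (fun δ : ℝ => c / (1 - δ)) 0 :=
      ContinuousAt.div (by fun_prop) (by fun_prop) (by norm_num)
    have h1 : ∀ᶠ δ in 𝓝[>] (0 : ℝ), c / (1 - δ) < a := by
      have := hc.tendsto.mono_left (nhdsWithin_le_nhds (s := Ioi (0 : ℝ)))
      simp only [sub_zero, div_one] at this
      exact this.eventually (gt_mem_nhds ha)
    obtain ⟨δ, hδ1, hδ2⟩ := (h1.and (Ioo_mem_nhdsGT (show (0 : ℝ) < 1 by norm_num))).exists
    have h2 : Tendsto (fun x : ℝ => Real.log x / x ^ δ + thetaP P x / x / (1 - δ)) atTop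
        (𝓝 (0 + c / (1 - δ))) :=
      ((isLittleO_log_rpow_atTop hδ2.1).tendsto_div_nhds_zero).add (h.div_const _)
    rw [zero_add] at h2
    filter_upwards [h2.eventually (gt_mem_nhds hδ1), eventually_gt_atTop 1] with x hx hx1
    refine lt_of_le_of_lt ?_ hx
    have hlog : 0 < Real.log x := Real.log_pos hx1
    have hx0 : 0 < x := by linarith
    have h3 := piP_le (P := P) hx1 hδ2.2
    have h1δ : 0 < 1 - δ := by linarith [hδ2.2]
    have h4 : (piP P x : ℝ) * Real.log x / x
        ≤ (x ^ (1 - δ) + thetaP P x / ((1 - δ) * Real.log x)) * Real.log x / x := by gcongr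
    refine h4.trans (le_of_eq ?_)
    rw [Real.rpow_sub hx0, Real.rpow_one]
    have : x ^ δ ≠ 0 := (Real.rpow_pos_of_pos hx0 _).ne'
    field_simp

theorem tendsto_scaled {f : ℝ → ℝ} {c t : ℝ} (ht : 0 < t)
    (h : Tendsto (fun x : ℝ => f x / x) atTop (𝓝 c)) :
    Tendsto (fun x : ℝ => f (t * x) / x) atTop (𝓝 (c * t)) := by
  have h1 : Tendsto (fun x : ℝ => t * x) atTop atTop := tendsto_id.const_mul_atTop ht
  have h2 := (h.comp h1).mul_const t
  refine h2.congr' ?_
  filter_upwards [eventually_gt_atTop 0] with x hx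
  simp only [Function.comp]
  field_simp

theorem tendsto_piP_scaled {c t : ℝ} (ht : 0 < t)
    (h : Tendsto (fun x : ℝ => thetaP P x / x) atTop (𝓝 c)) :
    Tendsto (fun x : ℝ => (piP P (t * x) : ℝ) * Real.log x / x) atTop (𝓝 (c * t)) := by
  have h1 : Tendsto (fun x : ℝ => t * x) atTop atTop := tendsto_id.const_mul_atTop ht
  have h2 := ((tendsto_piP h).comp h1).mul_const t
  have h3 : Tendsto (fun x : ℝ => Real.log x / Real.log (t * x)) atTop (𝓝 1) := by
    have h4 : Tendsto (fun x : ℝ => 1 - Real.log t / Real.log (t * x)) atTop (𝓝 (1 - 0)) := by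
      apply Tendsto.const_sub
      exact (tendsto_const_nhds).div_atTop (Real.tendsto_log_atTop.comp h1)
    rw [sub_zero] at h4
    refine h4.congr' ?_
    filter_upwards [eventually_gt_atTop 0, (Real.tendsto_log_atTop.comp h1).eventually_gt_atTop 0]
      with x hx hx2
    simp only [Function.comp] at hx2
    rw [eq_div_iff hx2.ne', sub_mul, div_mul_cancel₀ _ hx2.ne', one_mul,
      Real.log_mul ht.ne' hx.ne']
    ring
  have h5 := h2.mul h3
  rw [mul_one] at h5
  refine h5.congr' ?_
  filter_upwards [eventually_gt_atTop 0, (Real.tendsto_log_atTop.comp h1).eventually_gt_atTop 0]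
      with x hx hx2
  simp only [Function.comp] at hx2 ⊢
  field_simp

theorem tendsto_piP_Ioc {c s t : ℝ} (hs : 0 < s) (hst : s < t)
    (h : Tendsto (fun x : ℝ => thetaP P x / x) atTop (𝓝 c)) :
    Tendsto (fun x : ℝ => ((piP P (t * x) : ℝ) - piP P (s * x)) * Real.log x / x) atTop
      (𝓝 (c * (t - s))) := by
  have h1 := (tendsto_piP_scaled (hs.trans hst) h).sub (tendsto_piP_scaled hs h)
  rw [mul_sub]
  refine h1.congr fun x => ?_
  ring

theorem exists_prime_of_piP_lt {x y : ℝ} (hy : 0 ≤ y) (h : piP P x < piP P y) :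
    ∃ p : ℕ, p.Prime ∧ P p ∧ x < p ∧ (p : ℝ) ≤ y := by
  unfold piP at h
  obtain ⟨p, hp1, hp2⟩ := Finset.exists_mem_notMem_of_card_lt_card h
  rw [Finset.mem_filter, Finset.mem_Ioc] at hp1
  rw [Finset.mem_filter, Finset.mem_Ioc] at hp2
  refine ⟨p, hp1.2.1, hp1.2.2, ?_, (Nat.le_floor_iff hy).mp hp1.1.2⟩
  by_contra hc
  push Not at hc
  exact hp2 ⟨⟨hp1.1.1, Nat.le_floor hc⟩, hp1.2⟩

theorem eventually_exists_prime {c s t : ℝ} (hc : 0 < c) (hs : 0 < s) (hst : s < t)
    (h : Tendsto (fun x : ℝ => thetaP P x / x) atTop (𝓝 c)) :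
    ∀ᶠ x : ℝ in atTop, ∃ p : ℕ, p.Prime ∧ P p ∧ s * x < p ∧ (p : ℝ) ≤ t * x := by
  have h1 := (tendsto_piP_Ioc hs hst h).eventually
    (lt_mem_nhds (show 0 < c * (t - s) from mul_pos hc (by linarith)))
  filter_upwards [h1, eventually_gt_atTop 1] with x hx hx1
  apply exists_prime_of_piP_lt (mul_pos (hs.trans hst) (by linarith)).le
  have hlog : 0 < Real.log x := Real.log_pos hx1
  have h2 : 0 < ((piP P (t * x) : ℝ) - piP P (s * x)) := by
    by_contra hcon
    push Not at hcon
    have : ((piP P (t * x) : ℝ) - piP P (s * x)) * Real.log x / x ≤ 0 := by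
      apply div_nonpos_of_nonpos_of_nonneg _ (by linarith)
      exact mul_nonpos_of_nonpos_of_nonneg hcon hlog.le
    linarith
  have h3 : (piP P (s * x) : ℝ) < piP P (t * x) := by linarith
  exact_mod_cast h3

section AP

variable {q : ℕ} [NeZero q] {a : ZMod q}

open ArithmeticFunction ArithmeticFunction.vonMangoldt

theorem summ_residueClass_tendsto (ha : IsUnit a) :
    Tendsto (fun x : ℝ => summ (residueClass a) x / x) atTop (𝓝 (q.totient : ℝ)⁻¹) := by
  apply wiener_ikehara _ (fun n => residueClass_nonneg a n) _ (LFunctionResidueClassAux a)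
  · intro σ hσ
    apply LSeriesSummable_of_abscissaOfAbsConv_lt_re
    refine (abscissaOfAbsConv_residueClass_le_one a).trans_lt ?_
    rw [ofReal_re]
    exact_mod_cast hσ
  · exact continuousOn_LFunctionResidueClassAux a
  · intro s hs
    have h := eqOn_LFunctionResidueClassAux ha hs
    rw [h]
    push_cast
    ring

theorem summ_residueClass_sub_thetaP (x : ℝ) :
    |summ (residueClass a) x - thetaP (fun p => (p : ZMod q) = a) x|
      ≤ Chebyshev.psi x - Chebyshev.theta x := by
  have h1 : summ (residueClass a) x - thetaP (fun p => (p : ZMod q) = a) x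
      = ∑ n ∈ Finset.Ioc 0 ⌊x⌋₊ with ¬ n.Prime, residueClass a n := by
    unfold summ thetaP
    rw [show Finset.Icc 1 ⌊x⌋₊ = Finset.Ioc 0 ⌊x⌋₊ from rfl,
      ← Finset.sum_filter_add_sum_filter_not (Finset.Ioc 0 ⌊x⌋₊) (fun p => p.Prime)]
    have : ∑ n ∈ Finset.Ioc 0 ⌊x⌋₊ with n.Prime, residueClass a n
        = ∑ p ∈ Finset.filter (fun p : ℕ => p.Prime ∧ (p : ZMod q) = a) (Finset.Ioc 0 ⌊x⌋₊),
          Real.log p := by
      rw [Finset.sum_filter, Finset.sum_filter]
      apply Finset.sum_congr rfl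
      intro p _
      by_cases hp : p.Prime
      · by_cases h2 : (p : ZMod q) = a
        · rw [if_pos hp, if_pos ⟨hp, h2⟩]
          simp only [residueClass]
          rw [Set.indicator_of_mem (by exact h2), vonMangoldt_apply_prime hp]
        · rw [if_pos hp, if_neg (fun h => h2 h.2)]
          simp only [residueClass]
          rw [Set.indicator_of_notMem (by exact h2)]
      · rw [if_neg hp, if_neg (fun h => hp h.1)]
    rw [this]
    ring
  rw [h1, Chebyshev.psi_sub_theta_eq_sum_not_prime, abs_of_nonneg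
    (Finset.sum_nonneg fun n _ => residueClass_nonneg a n)]
  exact Finset.sum_le_sum fun n _ => residueClass_le a n

theorem psi_sub_theta_div_tendsto :
    Tendsto (fun x : ℝ => (Chebyshev.psi x - Chebyshev.theta x) / x) atTop (𝓝 0) := by
  obtain ⟨C, hC⟩ := Chebyshev.psi_sub_theta_le_mul_sqrt
  have h1 : Tendsto (fun x : ℝ => C * (x ^ (1 / 2 : ℝ))⁻¹) atTop (𝓝 (C * 0)) :=
    ((tendsto_rpow_atTop (by norm_num)).inv_tendsto_atTop).const_mul C
  rw [mul_zero] at h1
  refine squeeze_zero' ?_ ?_ h1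
  · filter_upwards [eventually_gt_atTop 0] with x hx
    have := Chebyshev.theta_le_psi x
    exact div_nonneg (by linarith) hx.le
  · filter_upwards [eventually_gt_atTop 0] with x hx
    rw [← Real.sqrt_eq_rpow, div_le_iff₀ hx]
    refine (hC x).trans (le_of_eq ?_)
    have h2 : √x ≠ 0 := (Real.sqrt_pos.mpr hx).ne'
    have h3 : √x * √x = x := Real.mul_self_sqrt hx.le
    field_simp
    linear_combination C * h3

/-- **Prime number theorem in arithmetic progressions**, theta form. -/
theorem thetaAP_tendsto (ha : IsUnit a) :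
    Tendsto (fun x : ℝ => thetaP (fun p => (p : ZMod q) = a) x / x) atTop
      (𝓝 (q.totient : ℝ)⁻¹) := by
  have h1 := summ_residueClass_tendsto ha
  have h2 : Tendsto (fun x : ℝ => (summ (residueClass a) x
      - thetaP (fun p => (p : ZMod q) = a) x) / x) atTop (𝓝 0) := by
    rw [tendsto_zero_iff_abs_tendsto_zero]
    refine squeeze_zero' (Eventually.of_forall fun x => abs_nonneg _) ?_ psi_sub_theta_div_tendsto
    filter_upwards [eventually_gt_atTop 0] with x hx
    simp only [Function.comp]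
    rw [abs_div, abs_of_pos hx]
    exact div_le_div_of_nonneg_right (summ_residueClass_sub_thetaP x) hx.le
  have h3 := h1.sub h2
  rw [sub_zero] at h3
  refine h3.congr fun x => ?_
  ring

/-- **Prime number theorem in arithmetic progressions**, counting form. -/
theorem piAP_tendsto (ha : IsUnit a) :
    Tendsto (fun x : ℝ => (piP (fun p => (p : ZMod q) = a) x : ℝ) * Real.log x / x) atTop
      (𝓝 (q.totient : ℝ)⁻¹) :=
  tendsto_piP (thetaAP_tendsto ha)

/-- Primes in short multiplicative intervals and residue classes. -/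
theorem eventually_exists_prime_AP (ha : IsUnit a) {s t : ℝ} (hs : 0 < s) (hst : s < t) :
    ∀ᶠ x : ℝ in atTop, ∃ p : ℕ, p.Prime ∧ (p : ZMod q) = a ∧ s * x < p ∧ (p : ℝ) ≤ t * x :=
  eventually_exists_prime (inv_pos.mpr (by exact_mod_cast q.totient.pos_of_neZero)) hs hst
    (thetaAP_tendsto ha)

end AP

/-- **Prime number theorem**, theta form. -/
theorem theta_tendsto : Tendsto (fun x : ℝ => Chebyshev.theta x / x) atTop (𝓝 1) := by
  have h := thetaAP_tendsto (q := 1) (a := 0) (by rw [isUnit_iff_eq_one]; rfl)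
  simp only [Nat.totient_one, Nat.cast_one, inv_one] at h
  refine h.congr fun x => ?_
  congr 1
  unfold thetaP Chebyshev.theta
  apply Finset.sum_congr _ fun _ _ => rfl
  ext p
  rw [Finset.mem_filter, Finset.mem_filter]
  constructor
  · rintro ⟨h1, h2, _⟩; exact ⟨h1, h2⟩
  · rintro ⟨h1, h2⟩; exact ⟨h1, h2, Subsingleton.elim _ _⟩

/-- **Prime number theorem**, psi form. -/
theorem psi_tendsto : Tendsto (fun x : ℝ => Chebyshev.psi x / x) atTop (𝓝 1) := by
  have h := theta_tendsto.add psi_sub_theta_div_tendsto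
  rw [add_zero] at h
  refine h.congr fun x => ?_
  ring

theorem piP_true (x : ℝ) : piP (fun _ => True) x = Nat.primeCounting ⌊x⌋₊ := by
  unfold piP
  rw [Nat.primeCounting, Nat.primeCounting', Nat.count_eq_card_filter_range]
  congr 1
  ext p
  rw [Finset.mem_filter, Finset.mem_filter, Finset.mem_Ioc, Finset.mem_range]
  constructor
  · rintro ⟨h1, h2, _⟩; exact ⟨by omega, h2⟩
  · rintro ⟨h1, h2⟩; exact ⟨⟨h2.pos, by omega⟩, h2, trivial⟩

theorem thetaP_true (x : ℝ) : thetaP (fun _ => True) x = Chebyshev.theta x := by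
  unfold thetaP Chebyshev.theta
  apply Finset.sum_congr _ fun _ _ => rfl
  ext p
  rw [Finset.mem_filter, Finset.mem_filter]
  constructor
  · rintro ⟨h1, h2, _⟩; exact ⟨h1, h2⟩
  · rintro ⟨h1, h2⟩; exact ⟨h1, h2, trivial⟩

theorem thetaP_true_tendsto :
    Tendsto (fun x : ℝ => thetaP (fun _ => True) x / x) atTop (𝓝 1) := by
  simp_rw [thetaP_true]
  exact theta_tendsto

/-- **Prime number theorem**, counting form. -/
theorem primeCounting_tendsto :
    Tendsto (fun x : ℝ => (Nat.primeCounting ⌊x⌋₊ : ℝ) * Real.log x / x) atTop (𝓝 1) := by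
  have h := tendsto_piP thetaP_true_tendsto
  simp_rw [piP_true] at h
  exact h

/-- **Prime number theorem**, counting form, along the natural numbers. -/
theorem primeCounting_nat_tendsto :
    Tendsto (fun n : ℕ => (Nat.primeCounting n : ℝ) * Real.log n / n) atTop (𝓝 1) := by
  have h := primeCounting_tendsto.comp tendsto_natCast_atTop_atTop
  refine h.congr fun n => ?_
  simp

/-- Primes in short multiplicative intervals. -/
theorem eventually_exists_prime_real {s t : ℝ} (hs : 0 < s) (hst : s < t) :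
    ∀ᶠ x : ℝ in atTop, ∃ p : ℕ, p.Prime ∧ s * x < p ∧ (p : ℝ) ≤ t * x := by
  filter_upwards [eventually_exists_prime one_pos hs hst thetaP_true_tendsto] with x hx
  obtain ⟨p, h1, _, h3, h4⟩ := hx
  exact ⟨p, h1, h3, h4⟩

/-- Primes in short multiplicative intervals, natural number form. -/
theorem eventually_exists_prime_nat {ε : ℝ} (hε : 0 < ε) :
    ∀ᶠ n : ℕ in atTop, ∃ p : ℕ, p.Prime ∧ n < p ∧ (p : ℝ) ≤ (1 + ε) * n := by
  have h := eventually_exists_prime_real one_pos (show (1 : ℝ) < 1 + ε by linarith)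
  filter_upwards [tendsto_natCast_atTop_atTop.eventually h] with n hn
  obtain ⟨p, h1, h2, h3⟩ := hn
  rw [one_mul] at h2
  exact ⟨p, h1, by exact_mod_cast h2, h3⟩

end Pool.Agent.Lib.PNT
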